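import Mathlib

/-!
A common divisor of two polynomial values is bounded through the resultant.
-/

set_option autoImplicit false

open Polynomial

namespace Pool.Agent.P.MP_4ef411_nt.Five

theorem res_bound (Q L : ℤ[X]) (hQ : Q ≠ 0) (hL : L.natDegree ≤ 3) (p n : ℤ)
    (h1 : p ∣ Q.eval n) (h2 : p ∣ L.eval n) (B : ℝ) (hB : 0 ≤ B)
    (h : ∀ z : ℂ, aeval z Q = 0 → aeval z L ≠ 0 ∧ ‖aeval z L‖ ≤ B) :
    (p : ℝ) ≤ |(Q.leadingCoeff : ℝ)| ^ 3 * B ^ Q.natDegree := by
  obtain ⟨a, b, -, -, hab⟩ := exists_mul_add_mul_eq_C_resultant Q L (m := Q.natDegree) (n := 3)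
    le_rfl hL (Or.inr (by norm_num))
  have hdv : p ∣ resultant Q L Q.natDegree 3 := by
    have h3 := congrArg (eval n) hab
    rw [eval_add, eval_mul, eval_mul, eval_C] at h3
    rw [← h3]
    exact (h1.mul_right _).add (h2.mul_right _)
  have hinj : Function.Injective (Int.castRingHom ℂ) := Int.cast_injective
  have hdeg : (Q.map (Int.castRingHom ℂ)).natDegree = Q.natDegree :=
    natDegree_map_eq_of_injective hinj Q
  have hsp : (Q.map (Int.castRingHom ℂ)).Splits := IsAlgClosed.splits _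
  have hpr := resultant_eq_prod_eval (Q.map (Int.castRingHom ℂ)) (L.map (Int.castRingHom ℂ)) 3
    (natDegree_map_le.trans hL) hsp
  rw [hdeg, resultant_map_map, leadingCoeff_map_of_injective hinj] at hpr
  have hcard : (Q.map (Int.castRingHom ℂ)).roots.card = Q.natDegree := by
    rw [← hdeg, hsp.natDegree_eq_card_roots]
  have hroot : ∀ z ∈ (Q.map (Int.castRingHom ℂ)).roots,
      (L.map (Int.castRingHom ℂ)).eval z ≠ 0 ∧ ‖(L.map (Int.castRingHom ℂ)).eval z‖ ≤ B := by
    intro z hz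
    have h3 := (mem_roots'.1 hz).2
    rw [IsRoot.def, eval_map] at h3
    rw [eval_map]
    exact h z h3
  generalize (Q.map (Int.castRingHom ℂ)).roots = s at hpr hcard hroot
  have hs : (s.map (L.map (Int.castRingHom ℂ)).eval).prod ≠ 0 ∧
      ‖(s.map (L.map (Int.castRingHom ℂ)).eval).prod‖ ≤ B ^ s.card := by
    clear hpr hcard
    induction s using Multiset.induction_on with
    | empty => simp
    | cons z s ih =>
      obtain ⟨i1, i2⟩ := ih fun y hy => hroot y (Multiset.mem_cons_of_mem hy)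
      obtain ⟨j1, j2⟩ := hroot z (Multiset.mem_cons_self _ _)
      rw [Multiset.map_cons, Multiset.prod_cons, Multiset.card_cons, norm_mul, pow_succ']
      exact ⟨mul_ne_zero j1 i1, mul_le_mul j2 i2 (norm_nonneg _) hB⟩
  generalize resultant Q L Q.natDegree 3 = q at hdv hpr
  have hlc : (Int.castRingHom ℂ) Q.leadingCoeff ≠ 0 := by
    simpa using hQ
  have hq : q ≠ 0 := by
    intro h0
    rw [h0, map_zero] at hpr
    exact mul_ne_zero (pow_ne_zero 3 hlc) hs.1 hpr.symm
  have h3 : (p : ℝ) ≤ ‖(Int.castRingHom ℂ) q‖ := by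
    rw [eq_intCast, Complex.norm_intCast]
    exact_mod_cast Int.le_of_dvd (abs_pos.2 hq) ((dvd_abs _ _).2 hdv)
  refine h3.trans ?_
  rw [hpr, norm_mul, norm_pow, eq_intCast, Complex.norm_intCast, ← hcard]
  exact mul_le_mul_of_nonneg_left hs.2 (by positivity)

end Pool.Agent.P.MP_4ef411_nt.Five
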