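import Mathlib
import Pool.Agent.P.MP_4ef411_nt.Pell
import Pool.Agent.P.MP_4ef411_nt.Five.Res

/-!
Integer points of a Pell conic on which every factor of a polynomial splits in two halves.
-/

set_option autoImplicit false

open Polynomial

namespace Pool.Agent.P.MP_4ef411_nt.Five

theorem line_ne {D E F a y u w n z Y : ℂ} (hy : y ^ 2 = D * a ^ 2 + E * a + F)
    (hp : u ^ 2 - D * w ^ 2 = 1) (hn : n = a + w * (w * (2 * D * a + E) + 2 * u * y))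
    (hY : Y ^ 2 = D * z ^ 2 + E * z + F) (h1 : z ≠ a) (h2 : z ≠ n) :
    u * (a - z) + w * (y + Y) ≠ 0 := by
  intro h
  have h3 : (z - a) * (z - n) = 0 := by
    rw [hn]
    linear_combination w ^ 2 * (hY - hy) - (z - a) ^ 2 * hp -
      (u * (z - a) - w * y + w * Y) * h
  rcases mul_eq_zero.1 h3 with h4 | h4
  · exact h1 (sub_eq_zero.1 h4)
  · exact h2 (sub_eq_zero.1 h4)

theorem norm_line {a y u w ε : ℤ} (hy : 0 ≤ y) (hw : 0 ≤ w) (hwu : w ≤ u)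
    (hε : ε = 1 ∨ ε = -1) (z Y : ℂ) :
    ‖(u * (a - z) + w * (y + ε * Y) : ℂ)‖ ≤ (‖(a - z : ℂ)‖ + y + ‖Y‖) * u := by
  have e1 : ‖(ε : ℂ)‖ = 1 := by rcases hε with rfl | rfl <;> simp
  have hn : ∀ x : ℤ, 0 ≤ x → ‖(x : ℂ)‖ = x := fun x hx => by
    rw [Complex.norm_intCast, abs_of_nonneg (by exact_mod_cast hx)]
  have h1 : ‖(y + ε * Y : ℂ)‖ ≤ y + ‖Y‖ := by
    refine (norm_add_le _ _).trans ?_
    rw [norm_mul, e1, one_mul, hn _ hy]
  have hw' : (0 : ℝ) ≤ w := by exact_mod_cast hw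
  have hwu' : (w : ℝ) ≤ u := by exact_mod_cast hwu
  have hy' : (0 : ℝ) ≤ y := by exact_mod_cast hy
  refine (norm_add_le _ _).trans ?_
  rw [norm_mul, norm_mul, hn _ hw, hn _ (hw.trans hwu)]
  have h2 : (w : ℝ) * ‖(y + ε * Y : ℂ)‖ ≤ u * (y + ‖Y‖) :=
    mul_le_mul hwu' h1 (norm_nonneg _) (hw'.trans hwu')
  linarith

theorem core (P S : ℤ[X]) (hP : P ≠ 0) (hS : S.natDegree ≤ 3) (D E F a : ℤ)
    (hdv : P ∣ S ^ 2 - (C D * X ^ 2 + C E * X + C F))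
    (ha : S.eval a ^ 2 = D * a ^ 2 + E * a + F) (hD : 0 < D) (hsq : ¬ IsSquare D)
    (hX : 0 < 2 * D * a + E) (ha0 : 0 ≤ a) (hroot : ∀ x, a ≤ x → P.eval x ≠ 0) :
    ∃ K : ℝ, ∀ N : ℕ, ∃ n : ℕ, N ≤ n ∧ P.eval (n : ℤ) ≠ 0 ∧ ∀ Q : ℤ[X], Q ∣ P →
      ∀ p : ℕ, p.Prime → (p : ℤ) ∣ Q.eval (n : ℤ) →
        (p : ℝ) ≤ K * (n : ℝ) ^ ((Q.natDegree : ℝ) / 2) := by
  classical
  obtain ⟨y, hy0, hy⟩ : ∃ y : ℤ, 0 ≤ y ∧ y ^ 2 = D * a ^ 2 + E * a + F :=
    ⟨|S.eval a|, abs_nonneg _, by rw [sq_abs, ha]⟩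
  have hy0' : (0 : ℝ) ≤ y := by exact_mod_cast hy0
  obtain ⟨K, hK1, hK⟩ : ∃ K : ℝ, 1 ≤ K ∧ ∀ z : ℂ, aeval z P = 0 →
      ‖(a - z : ℂ)‖ + y + ‖aeval z S‖ ≤ K := by
    have h0 : ∀ z : ℂ, 0 ≤ ‖(a - z : ℂ)‖ + y + ‖aeval z S‖ := fun z => by positivity
    have h1 := Finset.sum_nonneg (s := (P.aroots ℂ).toFinset) fun z _ => h0 z
    refine ⟨1 + ∑ z ∈ (P.aroots ℂ).toFinset, (‖(a - z : ℂ)‖ + y + ‖aeval z S‖), by linarith,
      fun z hz => ?_⟩
    have h2 := Finset.single_le_sum (s := (P.aroots ℂ).toFinset)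
      (f := fun z : ℂ => ‖(a - z : ℂ)‖ + y + ‖aeval z S‖) (fun z _ => h0 z)
      (Multiset.mem_toFinset.2 (mem_aroots.2 ⟨hP, hz⟩))
    linarith
  have hD' : (0 : ℝ) < D := by exact_mod_cast hD
  have hb1 : 1 ≤ K * √(D + 1) :=
    one_le_mul_of_one_le_of_one_le hK1 (Real.one_le_sqrt.2 (by linarith))
  refine ⟨|(P.leadingCoeff : ℝ)| ^ 3 * (K * √(D + 1)) ^ P.natDegree, fun N => ?_⟩
  obtain ⟨u, w, hw0, hwu, hwN, -, hp⟩ := pell_data hD hsq one_pos N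
  have hu0 : 0 < u := hw0.trans hwu
  obtain ⟨m, hm⟩ : ∃ m, m = a + w * (w * (2 * D * a + E) + 2 * u * y) := ⟨_, rfl⟩
  have hlow : a + w ^ 2 ≤ m := by
    have h1 : w ^ 2 * 1 ≤ w ^ 2 * (2 * D * a + E) :=
      mul_le_mul_of_nonneg_left hX (sq_nonneg _)
    have h2 : 0 ≤ w * (2 * u * y) := by positivity
    rw [hm]
    linarith
  have hww : w ≤ w ^ 2 := by nlinarith
  have hw2 : 1 ≤ w ^ 2 := one_le_pow₀ hw0
  obtain ⟨n, rfl⟩ := Int.eq_ofNat_of_zero_le (show 0 ≤ m by linarith)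
  have hun : u ^ 2 ≤ (D + 1) * n := by
    have h1 : (D + 1) * w ^ 2 ≤ (D + 1) * n :=
      mul_le_mul_of_nonneg_left (by linarith) (by linarith)
    linarith
  have hy1 : (u * w * (2 * D * a + E) + (u ^ 2 + D * w ^ 2) * y) ^ 2 =
      D * (n : ℤ) ^ 2 + E * n + F := by
    rw [hm]
    linear_combination hy + (w ^ 2 * (2 * D * a + E) ^ 2 + 2 * u * w * (2 * D * a + E) * y +
      y ^ 2 * (u ^ 2 - D * w ^ 2 + 1)) * hp
  refine ⟨n, by exact_mod_cast (show (N : ℤ) ≤ n by linarith), hroot _ (by linarith),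
    fun Q hQ p hpp hpQ => ?_⟩
  have hQ0 : Q ≠ 0 := ne_zero_of_dvd_ne_zero hP hQ
  have hpz : Prime (p : ℤ) := Nat.prime_iff_prime_int.1 hpp
  have h1 := hpQ.trans (eval_dvd (x := (n : ℤ)) (hQ.trans hdv))
  simp only [eval_sub, eval_pow, eval_add, eval_mul, eval_C, eval_X] at h1
  obtain ⟨ε, hε, h2⟩ := exists_sign hpz (hy1 ▸ h1)
  have hε2 : (ε : ℂ) ^ 2 = 1 := by rcases hε with rfl | rfl <;> simp
  have h3 := res_bound Q (C u * (C a - X) + C w * (C y + C ε * S)) hQ0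
    (by compute_degree!) p n hpQ (by
      simp only [eval_sub, eval_add, eval_mul, eval_C, eval_X]
      refine dvd_of_eq (h2.mul_left w) ?_
      rw [hm]
      linear_combination (w * y) * hp) (K * u) (by positivity) (fun z hz => by
      have hzP : aeval z P = 0 := aeval_eq_zero_of_dvd_aeval_eq_zero hQ hz
      have hzS := aeval_eq_zero_of_dvd_aeval_eq_zero hdv hzP
      have hne : ∀ x : ℤ, a ≤ x → z ≠ x := fun x hx h => hroot x hx (by
        rw [h, ← eq_intCast (algebraMap ℤ ℂ), aeval_algebraMap_apply_eq_algebraMap_eval] at hzP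
        simpa using hzP)
      simp only [map_sub, map_add, map_mul, map_pow, aeval_X, eq_intCast,
        map_intCast] at hzS ⊢
      refine ⟨line_ne (D := D) (E := E) (F := F) (n := ((n : ℤ) : ℂ)) (by exact_mod_cast hy)
        (by exact_mod_cast hp) (by exact_mod_cast hm) ?_ (hne a le_rfl) (hne n (by linarith)),
        (norm_line hy0 hw0.le hwu.le hε _ _).trans ?_⟩
      · rw [mul_pow, hε2, one_mul]
        exact sub_eq_zero.1 hzS
      · exact mul_le_mul_of_nonneg_right (hK z hzP) (by exact_mod_cast hu0.le))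
  refine h3.trans ?_
  have h4 : |(Q.leadingCoeff : ℝ)| ≤ |(P.leadingCoeff : ℝ)| := by
    have h5 := Int.le_of_dvd (abs_pos.2 (leadingCoeff_ne_zero.2 hP))
      ((abs_dvd_abs _ _).2 (leadingCoeff_dvd_leadingCoeff hQ))
    exact_mod_cast h5
  have h5 : (u : ℝ) ≤ √(D + 1) * √n := by
    rw [← Real.sqrt_mul (by linarith)]
    exact Real.le_sqrt_of_sq_le (by exact_mod_cast hun)
  have h6 : (n : ℝ) ^ ((Q.natDegree : ℝ) / 2) = √n ^ Q.natDegree := by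
    rw [Real.sqrt_eq_rpow, ← Real.rpow_natCast, ← Real.rpow_mul (Nat.cast_nonneg _)]
    congr 1
    ring
  have hu' : (0 : ℝ) ≤ u := by exact_mod_cast hu0.le
  rw [h6, mul_assoc]
  refine mul_le_mul (by gcongr) ?_ (by positivity) (by positivity)
  calc (K * u) ^ Q.natDegree ≤ (K * (√(D + 1) * √n)) ^ Q.natDegree := by gcongr
    _ = (K * √(D + 1)) ^ Q.natDegree * √n ^ Q.natDegree := by rw [← mul_assoc, mul_pow]
    _ ≤ _ := mul_le_mul_of_nonneg_right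
        (pow_le_pow_right₀ hb1 (natDegree_le_of_dvd hQ hP)) (by positivity)

end Pool.Agent.P.MP_4ef411_nt.Five
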