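import Mathlib
import Pool.Agent.P.MP_4ef411_nt.NonSq
import Pool.Agent.P.MP_4ef411_nt.Five.Core

/-!
Choice of the base point for a quintic.
-/

set_option autoImplicit false

open Filter Topology Polynomial

namespace Pool.Agent.P.MP_4ef411_nt.Five

theorem exists_not_isSquare_five (c w3 w2 w1 w0 : ℤ) (hc : 0 < c) (i₀ : ℕ) :
    ∃ i : ℕ, i₀ ≤ i ∧
      ¬ IsSquare (5 * c ^ 2 * (i : ℤ) ^ 4 + w3 * i ^ 3 + w2 * i ^ 2 + w1 * i + w0) := by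
  by_contra hcon
  have h1 : ∀ i : ℕ, ∃ z : ℤ, 0 ≤ z ∧ (i₀ ≤ i → z ^ 2 = 5 * c ^ 2 * (i : ℤ) ^ 6 + w3 * i ^ 5 +
      w2 * i ^ 4 + w1 * i ^ 3 + w0 * i ^ 2) := fun i => by
    by_cases hi : i₀ ≤ i
    · obtain ⟨r, hr⟩ := not_not.1 fun h => hcon ⟨i, hi, h⟩
      exact ⟨|r * i|, abs_nonneg _, fun _ => by rw [sq_abs]; linear_combination (-(i : ℤ) ^ 2) * hr⟩
    · exact ⟨0, le_rfl, fun h => absurd h hi⟩
  choose z hz0 hz using h1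
  have hc' : (0 : ℝ) < c := by exact_mod_cast hc
  have h2 : (√5 : ℝ) ^ 2 = 5 := Real.sq_sqrt (by norm_num)
  obtain ⟨s2, s1, s0, ht⟩ := approx_sqrt (√5 * c) w3 w2 w1 w0 0 0 (by positivity)
    (fun i => (z i : ℝ)) (fun i => by exact_mod_cast hz0 i) (by
      filter_upwards [eventually_ge_atTop i₀] with i hi
      have h3 : ((z i : ℤ) : ℝ) ^ 2 = 5 * c ^ 2 * (i : ℝ) ^ 6 + w3 * i ^ 5 + w2 * i ^ 4 +
          w1 * i ^ 3 + w0 * i ^ 2 := by exact_mod_cast hz i hi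
      rw [h3, mul_pow, h2]
      ring)
  have a1 := (tendsto_add_atTop_iff_nat 1).2 ht
  have a2 := (tendsto_add_atTop_iff_nat 2).2 ht
  have a3 := (tendsto_add_atTop_iff_nat 3).2 ht
  have t : Tendsto (fun i : ℕ => ((z (i + 3) - 3 * z (i + 2) + 3 * z (i + 1) - z i : ℤ) : ℝ))
      atTop (𝓝 (6 * c * √5)) := by
    have t0 := (((a3.sub (a2.const_mul 3)).add (a1.const_mul 3)).sub ht).add_const (6 * c * √5)
    simp only [mul_zero, sub_zero, add_zero, zero_add] at t0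
    refine t0.congr fun i => ?_
    push_cast
    ring
  obtain ⟨m, hm⟩ := Int.isClosedEmbedding_coe_real.isClosed_range.mem_of_tendsto t
    (Eventually.of_forall fun i => ⟨_, rfl⟩)
  have h5 : Irrational (√5 : ℝ) := by
    simpa using (show Nat.Prime 5 by norm_num).irrational_sqrt
  have h4 : Irrational (((6 * c : ℤ) : ℝ) * √5) := h5.intCast_mul (by positivity)
  exact h4.ne_int m (by push_cast; exact hm.symm)

theorem step_pos {c b x s : ℤ} (hc : 0 < c) (hx : |b| < x) (hs : c ≤ s) : c ≤ s * x + b := by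
  have h1 := neg_abs_le b
  have h2 := abs_nonneg b
  nlinarith

theorem ev_pos (c w4 w3 w2 w1 w0 : ℤ) (hc : 0 < c) : ∃ i₀ : ℕ, ∀ x : ℤ, (i₀ : ℤ) ≤ x →
    0 < c * x ^ 4 + w4 * x ^ 3 + w3 * x ^ 2 + w2 * x + w1 ∧
    0 < c * x ^ 5 + w4 * x ^ 4 + w3 * x ^ 3 + w2 * x ^ 2 + w1 * x + w0 := by
  refine ⟨(|w4| + |w3| + |w2| + |w1| + |w0| + 1).toNat, fun x hx => ?_⟩
  have a4 := abs_nonneg w4
  have a3 := abs_nonneg w3
  have a2 := abs_nonneg w2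
  have a1 := abs_nonneg w1
  have a0 := abs_nonneg w0
  rw [Int.toNat_of_nonneg (by linarith)] at hx
  have b4 := step_pos one_pos (show |w4| < x by linarith) hc
  have b3 := step_pos one_pos (show |w3| < x by linarith) b4
  have b2 := step_pos one_pos (show |w2| < x by linarith) b3
  have b1 := step_pos one_pos (show |w1| < x by linarith) b2
  have b0 := step_pos one_pos (show |w0| < x by linarith) b1
  constructor <;> linarith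

theorem quintic (e p4 p3 p2 p1 p0 : ℤ) (he : 0 < e) (P : ℤ[X])
    (hP : P = C e * X ^ 5 + C p4 * X ^ 4 + C p3 * X ^ 3 + C p2 * X ^ 2 + C p1 * X + C p0) :
    ∃ K : ℝ, ∀ N : ℕ, ∃ n : ℕ, N ≤ n ∧ P.eval (n : ℤ) ≠ 0 ∧ ∀ Q : ℤ[X], Q ∣ P →
      ∀ p : ℕ, p.Prime → (p : ℤ) ∣ Q.eval (n : ℤ) →
        (p : ℝ) ≤ K * (n : ℝ) ^ ((Q.natDegree : ℝ) / 2) := by
  obtain ⟨d2, hd2⟩ : ∃ d, d = -8 * e ^ 4 * p4 ^ 2 + 32 * e ^ 5 * p3 := ⟨_, rfl⟩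
  obtain ⟨d1, hd1⟩ : ∃ d, d = 16 * e ^ 3 * p4 ^ 3 - 64 * e ^ 4 * p4 * p3 + 128 * e ^ 5 * p2 :=
    ⟨_, rfl⟩
  obtain ⟨d0, hd0⟩ : ∃ d, d = 20 * e ^ 2 * p4 ^ 4 - 96 * e ^ 3 * p4 ^ 2 * p3 +
    64 * e ^ 4 * p3 ^ 2 + 128 * e ^ 4 * p4 * p2 - 256 * e ^ 5 * p1 := ⟨_, rfl⟩
  obtain ⟨i1, h1⟩ := ev_pos e p4 p3 p2 p1 p0 he
  obtain ⟨i2, h2⟩ := ev_pos (20 * e ^ 6) (16 * e ^ 5 * p4) d2 d1 d0 0 (by positivity)
  obtain ⟨i3, h3⟩ := ev_pos (44 * e ^ 6) (44 * e ^ 5 * p4) (-8 * e ^ 4 * p4 ^ 2 + 64 * e ^ 5 * p3)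
    (24 * e ^ 3 * p4 ^ 3 - 96 * e ^ 4 * p4 * p3 + 224 * e ^ 5 * p2)
    (28 * e ^ 2 * p4 ^ 4 - 128 * e ^ 3 * p4 ^ 2 * p3 + 64 * e ^ 4 * p3 ^ 2 +
      192 * e ^ 4 * p4 * p2 - 256 * e ^ 5 * p1)
    (-4 * e * p4 ^ 5 + 32 * e ^ 2 * p4 ^ 3 * p3 - 64 * e ^ 3 * p4 * p3 ^ 2 -
      32 * e ^ 3 * p4 ^ 2 * p2 + 128 * e ^ 4 * p3 * p2 - 256 * e ^ 5 * p0) (by positivity)
  obtain ⟨i, hi, hsq⟩ := exists_not_isSquare_five (2 * e ^ 3) (16 * e ^ 5 * p4) d2 d1 d0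
    (by positivity) (i1 + i2 + i3)
  have hi' : (i1 : ℤ) + i2 + i3 ≤ i := by exact_mod_cast hi
  have n1 := Int.natCast_nonneg i1
  have n2 := Int.natCast_nonneg i2
  have n3 := Int.natCast_nonneg i3
  generalize (i : ℤ) = a at hi' hsq
  have hev : ∀ x : ℤ, P.eval x = e * x ^ 5 + p4 * x ^ 4 + p3 * x ^ 3 + p2 * x ^ 2 + p1 * x + p0 :=
    fun x => by simp only [hP, eval_add, eval_mul, eval_pow, eval_C, eval_X]
  have hroot : ∀ x, a ≤ x → P.eval x ≠ 0 := fun x hx => by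
    rw [hev]
    exact (h1 x (by linarith)).2.ne'
  have hP0 : P ≠ 0 := fun h => hroot a le_rfl (by rw [h, eval_zero])
  obtain ⟨s1, hs1⟩ : ∃ s, s = 2 * e * (4 * e * (p3 - a * p4) - (p4 - a * e) ^ 2) := ⟨_, rfl⟩
  obtain ⟨s0, hs0⟩ : ∃ s, s = 8 * e ^ 2 * (p2 - a * p3) - 4 * e * (p3 - a * p4) * (p4 - a * e) +
    (p4 - a * e) ^ 3 := ⟨_, rfl⟩
  obtain ⟨D, hD⟩ : ∃ D, D = 20 * e ^ 6 * a ^ 4 + 16 * e ^ 5 * p4 * a ^ 3 + d2 * a ^ 2 + d1 * a +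
    d0 := ⟨_, rfl⟩
  have key : (C (16 * e ^ 3) * X ^ 3 + C (8 * e ^ 2 * (p4 - a * e)) * X ^ 2 + C s1 * X + C s0) ^ 2 -
      (C D * X ^ 2 + C (2 * s1 * s0 - 256 * e ^ 5 * (p0 - a * p1)) * X +
        C (s0 ^ 2 + 256 * e ^ 5 * (a * p0))) = P * (C (256 * e ^ 5) * (X - C a)) := by
    refine Polynomial.funext fun x => ?_
    simp only [hev, eval_sub, eval_add, eval_mul, eval_pow, eval_C, eval_X]
    rw [hD, hd2, hd1, hd0, hs1, hs0]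
    ring
  refine core P _ hP0 (by compute_degree) D _ _ a ⟨_, key⟩ ?_ ?_ ?_ ?_ (by linarith) hroot
  · have h4 := congrArg (eval a) key
    rw [eval_sub, eval_pow, eval_mul, eval_mul, eval_sub, eval_X, eval_C, eval_C, sub_self,
      mul_zero, mul_zero, sub_eq_zero] at h4
    rw [h4]
    simp only [eval_add, eval_mul, eval_pow, eval_C, eval_X]
  · rw [hD]
    exact (h2 a (by linarith)).1
  · refine fun h => hsq ?_
    rw [hD] at h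
    rwa [show 5 * (2 * e ^ 3) ^ 2 = 20 * e ^ 6 by ring]
  · refine (h3 a (by linarith)).2.trans_eq ?_
    rw [hD, hd2, hd1, hd0, hs1, hs0]
    ring

end Pool.Agent.P.MP_4ef411_nt.Five
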